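import Mathlib
set_option autoImplicit false

namespace Pool.Agent.H.MP_8cad3b_co
open Finset
open scoped Classical

variable {V : Type} [Fintype V]

noncomputable def ind (p : Prop) : ℝ := if p then 1 else 0

theorem ind_nonneg (p : Prop) : 0 ≤ ind p := by unfold ind; split_ifs <;> norm_num

theorem ind_le (p : Prop) : ind p ≤ 1 := by unfold ind; split_ifs <;> norm_num

theorem ind_mono {p q : Prop} (h : p → q) : ind p ≤ ind q := by
  unfold ind
  split_ifs <;> simp_all

noncomputable def c2 (A B : Finset V) (p : V → V → Prop) : ℝ := ∑ x ∈ A, ∑ y ∈ B, ind (p x y)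

omit [Fintype V] in
theorem c2_nonneg (A B : Finset V) (p : V → V → Prop) : 0 ≤ c2 A B p :=
  sum_nonneg fun _ _ => sum_nonneg fun _ _ => ind_nonneg _

omit [Fintype V] in
theorem c2_le (A B : Finset V) (p : V → V → Prop) : c2 A B p ≤ A.card * B.card := by
  refine (sum_le_sum fun _ _ => sum_le_sum fun _ _ => ind_le _).trans ?_
  simp

omit [Fintype V] in
theorem c2_mono {A B : Finset V} {p q : V → V → Prop} (h : ∀ x ∈ A, ∀ y ∈ B, p x y → q x y) :
    c2 A B p ≤ c2 A B q :=
  sum_le_sum fun x hx => sum_le_sum fun y hy => ind_mono (h x hx y hy)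

omit [Fintype V] in
theorem c2_split {A U : Finset V} (h : A ⊆ U) (p : V → V → Prop) :
    c2 U U p = c2 A A p + c2 A (U \ A) p + c2 (U \ A) A p + c2 (U \ A) (U \ A) p := by
  unfold c2
  simp only [← sum_sdiff h, sum_add_distrib]
  ring

omit [Fintype V] in
theorem c2_comm (A B : Finset V) (p : V → V → Prop) : c2 A B p = c2 B A fun x y => p y x :=
  sum_comm

theorem c2_del (U W : Finset V) (p : V → V → Prop) :
    c2 U U p ≤ c2 (U \ W) (U \ W) p + 2 * W.card * Fintype.card V ∧
      c2 (U \ W) (U \ W) p ≤ c2 U U p := by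
  have h := c2_split (sdiff_subset (s := U) (t := W)) p
  have h1 : ((U \ (U \ W)).card : ℝ) ≤ W.card := by
    exact_mod_cast card_le_card fun x hx => by
      simp only [mem_sdiff] at hx
      tauto
  have h2 : ((U \ W).card : ℝ) + (U \ (U \ W)).card ≤ Fintype.card V := by
    rw [← Nat.cast_add, add_comm, card_sdiff_add_card_eq_card sdiff_subset]
    exact_mod_cast card_le_univ U
  have a1 := c2_le (U \ W) (U \ (U \ W)) p
  have a2 := c2_le (U \ (U \ W)) (U \ W) p
  have a3 := c2_le (U \ (U \ W)) (U \ (U \ W)) p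
  have b1 := c2_nonneg (U \ W) (U \ (U \ W)) p
  have b2 := c2_nonneg (U \ (U \ W)) (U \ W) p
  have b3 := c2_nonneg (U \ (U \ W)) (U \ (U \ W)) p
  have c1 : (0 : ℝ) ≤ (U \ W).card := by positivity
  have c2 : (0 : ℝ) ≤ (U \ (U \ W)).card := by positivity
  constructor
  · nlinarith
  · linarith

omit [Fintype V] in
theorem c2_cover (F : Finset (Finset V)) (U : Finset V) (p : V → V → Prop) (q : ℝ)
    (h : ∀ x ∈ U, ∀ y ∈ U, p x y → ∃ Q ∈ F, x ∈ Q ∧ y ∈ Q)
    (hq : ∀ Q ∈ F, c2 (Q ∩ U) (Q ∩ U) p ≤ q) : c2 U U p ≤ F.card * q := by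
  have h1 : c2 U U p ≤ ∑ Q ∈ F, c2 U U fun x y => x ∈ Q ∧ y ∈ Q ∧ p x y := by
    unfold c2
    rw [sum_comm (s := F)]
    refine sum_le_sum fun x hx => ?_
    rw [sum_comm (s := F)]
    refine sum_le_sum fun y hy => ?_
    by_cases hp : p x y
    · obtain ⟨Q, hQ, h1, h2⟩ := h x hx y hy hp
      have h3 := single_le_sum (f := fun Q : Finset V => ind (x ∈ Q ∧ y ∈ Q ∧ p x y))
        (fun _ _ => ind_nonneg _) hQ
      exact (ind_mono fun _ => ⟨h1, h2, hp⟩).trans h3
    · rw [ind, if_neg hp]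
      exact sum_nonneg fun _ _ => ind_nonneg _
  refine h1.trans ?_
  rw [← nsmul_eq_mul, ← sum_const]
  refine sum_le_sum fun Q hQ => le_trans (le_of_eq ?_) (hq Q hQ)
  unfold c2
  rw [← sum_subset (inter_subset_right (s₁ := Q)) (fun x hx hx' => sum_eq_zero fun y _ => by
    rw [ind, if_neg fun h => hx' (mem_inter.2 ⟨h.1, hx⟩)])]
  refine sum_congr rfl fun x hx => ?_
  rw [← sum_subset (inter_subset_right (s₁ := Q)) (fun y hy hy' => by
    rw [ind, if_neg fun h => hy' (mem_inter.2 ⟨h.2.1, hy⟩)])]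
  refine sum_congr rfl fun y hy => ?_
  simp [ind, (mem_inter.1 hx).1, (mem_inter.1 hy).1]

noncomputable def KK (G : SimpleGraph V) (s : ℕ) (U : Finset V) : Finset (Finset V) :=
  univ.filter fun Q => G.IsNClique s Q ∧ Q ⊆ U

theorem fur (r : ℕ) : ∀ δ : ℝ, 0 < δ → ∃ a : ℝ, 0 < a ∧ ∀ (V : Type) [Fintype V] (G : SimpleGraph V)
    (U : Finset V), ((KK G (r + 2) U).card : ℝ) ≤ a * Fintype.card V ^ (r + 2) →
    ∃ P : V → ℕ, (∀ x, P x ≤ r) ∧ 2 * c2 U U (fun x y => G.Adj x y ∧ P x = P y) ≤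
      c2 U U (fun x y => ¬ G.Adj x y ∧ P x ≠ P y) + δ * Fintype.card V ^ 2 := by
  induction r with
  | zero =>
    intro δ hδ
    refine ⟨δ / 8, by positivity, fun V _ G U h => ⟨fun _ => 0, fun _ => le_rfl, ?_⟩⟩
    have h1 := c2_cover (KK G 2 U) U (fun x y => G.Adj x y ∧ 0 = 0) 4 (fun x hx y hy hp =>
      ⟨{x, y}, mem_filter.2 ⟨mem_univ _, ⟨by simpa using fun _ => hp.1, card_pair hp.1.ne⟩,
        by simp [insert_subset_iff, hx, hy]⟩, by simp, by simp⟩) (fun Q hQ => by
      have h2 : ((Q ∩ U).card : ℝ) ≤ 2 := by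
        exact_mod_cast (card_le_card inter_subset_left).trans (mem_filter.1 hQ).2.1.2.le
      have h3 : (0 : ℝ) ≤ (Q ∩ U).card := by positivity
      exact (c2_le _ _ _).trans (by nlinarith))
    have h2 := c2_nonneg U U fun x y => ¬ G.Adj x y ∧ 0 ≠ 0
    simp only [zero_add] at h
    linarith
  | succ r ih =>
    intro δ hδ
    obtain ⟨a, ha, H⟩ := ih (δ / 2) (by positivity)
    refine ⟨a * (δ / 8) / (r + 3), by positivity, fun V _ G U h => ?_⟩
    set n : ℝ := (Fintype.card V : ℝ) with hn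
    have hn0 : 0 ≤ n := by positivity
    set W := U.filter fun x => a * n ^ (r + 2) < ((KK G (r + 3) U).filter fun Q => x ∈ Q).card
      with hW
    have hWc : (W.card : ℝ) ≤ δ / 8 * n := by
      rcases W.eq_empty_or_nonempty with h0 | ⟨x0, -⟩
      · rw [h0]
        simp only [card_empty, Nat.cast_zero]
        positivity
      have hn1 : 0 < n := by
        rw [hn]
        exact_mod_cast Fintype.card_pos_iff.2 ⟨x0⟩
      have h1 : ∑ x ∈ W, ((KK G (r + 3) U).filter fun Q => x ∈ Q).card ≤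
          (KK G (r + 3) U).card * (r + 3) := by
        have e := sum_card_bipartiteAbove_eq_sum_card_bipartiteBelow (s := W)
          (t := KK G (r + 3) U) (fun x Q => x ∈ Q)
        refine e.le.trans ?_
        rw [← smul_eq_mul, ← sum_const]
        refine sum_le_sum fun Q hQ => le_trans (card_le_card fun x hx => ?_)
          (mem_filter.1 hQ).2.1.2.le
        exact (mem_filter.1 hx).2
      have h2 : (W.card : ℝ) * (a * n ^ (r + 2)) ≤
          ∑ x ∈ W, (((KK G (r + 3) U).filter fun Q => x ∈ Q).card : ℝ) := by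
        rw [← nsmul_eq_mul, ← sum_const]
        exact sum_le_sum fun x hx => (mem_filter.1 hx).2.le
      have h3 : ∑ x ∈ W, (((KK G (r + 3) U).filter fun Q => x ∈ Q).card : ℝ) ≤
          (KK G (r + 3) U).card * (r + 3) := by exact_mod_cast h1
      have h4 : ((KK G (r + 3) U).card : ℝ) * (r + 3) ≤ δ / 8 * n * (a * n ^ (r + 2)) := by
        rw [← le_div_iff₀ (by positivity)]
        refine h.trans (le_of_eq ?_)
        field_simp
        ring
      exact le_of_mul_le_mul_right (h2.trans (h3.trans h4)) (by positivity)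
    suffices hs : ∃ P : V → ℕ, (∀ x, P x ≤ r + 1) ∧
        2 * c2 (U \ W) (U \ W) (fun x y => G.Adj x y ∧ P x = P y) ≤
        c2 (U \ W) (U \ W) (fun x y => ¬ G.Adj x y ∧ P x ≠ P y) + δ / 2 * n ^ 2 by
      obtain ⟨P, p1, p2⟩ := hs
      refine ⟨P, p1, ?_⟩
      have a1 := (c2_del U W fun x y => G.Adj x y ∧ P x = P y).1
      have a2 := (c2_del U W fun x y => ¬ G.Adj x y ∧ P x ≠ P y).2
      rw [← hn] at a1
      nlinarith
    rcases (U \ W).eq_empty_or_nonempty with h0 | h0
    · refine ⟨fun _ => 0, fun _ => Nat.zero_le _, ?_⟩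
      rw [h0]
      simp only [c2, sum_empty, mul_zero]
      positivity
    obtain ⟨x, hx, hmax⟩ := exists_max_image (U \ W)
      (fun x => ((U \ W).filter fun y => G.Adj x y).card) h0
    set N := (U \ W).filter fun y => G.Adj x y with hN
    have hNU : N ⊆ U \ W := filter_subset _ _
    have h1 : (KK G (r + 2) N).card ≤ ((KK G (r + 3) U).filter fun Q => x ∈ Q).card := by
      have hxQ : ∀ Q ∈ KK G (r + 2) N, x ∉ Q := fun Q hQ hxQ =>
        (mem_filter.1 ((mem_filter.1 hQ).2.2 hxQ)).2.ne rfl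
      refine card_le_card_of_injOn (insert x) (fun Q hQ => ?_) fun Q hQ Q' hQ' he => ?_
      · obtain ⟨-, q1, q2⟩ := mem_filter.1 hQ
        refine mem_filter.2 ⟨mem_filter.2 ⟨mem_univ _, q1.insert fun y hy => (mem_filter.1 (q2 hy)).2,
          insert_subset (mem_sdiff.1 hx).1 (q2.trans (hNU.trans sdiff_subset))⟩, mem_insert_self _ _⟩
      · rw [← erase_insert (hxQ Q hQ), he, erase_insert (hxQ Q' hQ')]
    have h2 : (((KK G (r + 3) U).filter fun Q => x ∈ Q).card : ℝ) ≤ a * n ^ (r + 2) :=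
      not_lt.1 fun h => (mem_sdiff.1 hx).2 (mem_filter.2 ⟨(mem_sdiff.1 hx).1, h⟩)
    obtain ⟨P, p1, p2⟩ := H V G N (le_trans (by exact_mod_cast h1) h2)
    refine ⟨fun y => if y ∈ N then P y else r + 1, fun y => ?_, ?_⟩
    · have := p1 y
      dsimp only
      split_ifs <;> omega
    rw [c2_split hNU, c2_split hNU]
    generalize U \ W = U0 at *
    have e1 : c2 N N (fun y z => G.Adj y z ∧ (if y ∈ N then P y else r + 1) =
        if z ∈ N then P z else r + 1) ≤ c2 N N fun y z => G.Adj y z ∧ P y = P z :=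
      c2_mono fun y hy z hz h => by simpa only [if_pos hy, if_pos hz] using h
    have e2 : c2 N N (fun y z => ¬ G.Adj y z ∧ P y ≠ P z) ≤
        c2 N N fun y z => ¬ G.Adj y z ∧ (if y ∈ N then P y else r + 1) ≠
        if z ∈ N then P z else r + 1 :=
      c2_mono fun y hy z hz h => by simpa only [if_pos hy, if_pos hz] using h
    have z0 : ∀ A B : Finset V, c2 A B (fun _ _ => False) = 0 := fun A B => by simp [c2, ind]
    have e3 : c2 N (U0 \ N) (fun y z => G.Adj y z ∧ (if y ∈ N then P y else r + 1) =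
        if z ∈ N then P z else r + 1) ≤ 0 := by
      rw [← z0 N (U0 \ N)]
      refine c2_mono fun y hy z hz h => ?_
      have := p1 y
      rw [if_pos hy, if_neg (mem_sdiff.1 hz).2] at h
      omega
    have e4 : c2 (U0 \ N) N (fun y z => G.Adj y z ∧ (if y ∈ N then P y else r + 1) =
        if z ∈ N then P z else r + 1) ≤ 0 := by
      rw [← z0 (U0 \ N) N]
      refine c2_mono fun y hy z hz h => ?_
      have := p1 z
      rw [if_pos hz, if_neg (mem_sdiff.1 hy).2] at h
      omega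
    have e5 : c2 (U0 \ N) (U0 \ N) (fun y z => G.Adj y z ∧ (if y ∈ N then P y else r + 1) =
        if z ∈ N then P z else r + 1) ≤ c2 (U0 \ N) N fun y z => ¬ G.Adj y z := by
      refine (c2_mono (q := fun y z => G.Adj y z) fun y _ z _ h => h.1).trans
        (sum_le_sum fun y hy => ?_)
      have t1 : (((U0.filter fun z => G.Adj y z).card : ℕ) : ℝ) ≤ N.card := by
        exact_mod_cast hmax y (mem_sdiff.1 hy).1
      have t2 : (((U0.filter fun z => G.Adj y z).card : ℕ) : ℝ) = ∑ z ∈ U0, ind (G.Adj y z) := by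
        simp [ind]
      have t3 : (N.card : ℝ) = ∑ z ∈ N, ind (G.Adj y z) + ∑ z ∈ N, ind (¬ G.Adj y z) := by
        rw [← sum_add_distrib, card_eq_sum_ones, Nat.cast_sum]
        refine sum_congr rfl fun z _ => ?_
        by_cases h : G.Adj y z <;> simp [ind, h]
      rw [t2, t3, ← sum_sdiff hNU] at t1
      linarith
    have e6 : c2 (U0 \ N) N (fun y z => ¬ G.Adj y z) ≤
        c2 (U0 \ N) N fun y z => ¬ G.Adj y z ∧ (if y ∈ N then P y else r + 1) ≠
        if z ∈ N then P z else r + 1 := c2_mono fun y hy z hz h => ⟨h, by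
      have := p1 z
      rw [if_pos hz, if_neg (mem_sdiff.1 hy).2]
      omega⟩
    have e7 : c2 (U0 \ N) N (fun y z => ¬ G.Adj y z) ≤
        c2 N (U0 \ N) fun y z => ¬ G.Adj y z ∧ (if y ∈ N then P y else r + 1) ≠
        if z ∈ N then P z else r + 1 := by
      rw [c2_comm]
      exact c2_mono fun y hy z hz h => ⟨fun h' => h h'.symm, by
        have := p1 y
        rw [if_pos hy, if_neg (mem_sdiff.1 hz).2]
        omega⟩
    have e8 := c2_nonneg (U0 \ N) (U0 \ N) fun y z => ¬ G.Adj y z ∧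
      (if y ∈ N then P y else r + 1) ≠ if z ∈ N then P z else r + 1
    linarith

end Pool.Agent.H.MP_8cad3b_co
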