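import Pool.Agent.H.MP_8cad3b_co.A
set_option autoImplicit false

namespace Pool.Agent.H.MP_8cad3b_co
open Finset
open scoped Classical

variable {V : Type} [Fintype V]

theorem many (ok : ℕ → Finset V → Prop) (l : ℕ) (g : ℝ) (hg : 0 < g) (hl : 4 ≤ l)
    (hs : ∀ s Q, s < l → ok s Q → g ≤ (univ.filter fun a => ok (s + 1) (insert a Q)).card)
    (Q0 : Finset V) (h0 : ok 2 Q0) (F : Finset (Finset V)) (hF : ∀ Q, ok l Q → Q0 ⊆ Q → Q ∈ F)
    (hc : ∀ Q ∈ F, Q.card ≤ l) : g ^ 2 ≤ F.card * (l : ℝ) ^ 2 := by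
  have ext : ∀ j s Q, s + j = l → ok s Q → ∃ Q', ok l Q' ∧ Q ⊆ Q' := by
    intro j
    induction j with
    | zero => exact fun s Q h1 h2 => ⟨Q, h1 ▸ h2, Subset.rfl⟩
    | succ j ih =>
      intro s Q h1 h2
      have h3 := hg.trans_le (hs s Q (by omega) h2)
      obtain ⟨a, ha⟩ := card_pos.1 (Nat.cast_pos.1 h3)
      obtain ⟨Q', q1, q2⟩ := ih (s + 1) _ (by omega) (mem_filter.1 ha).2
      exact ⟨Q', q1, (subset_insert _ _).trans q2⟩
  have h1 := c2_cover F univ (fun x y => ∃ Q ∈ F, x ∈ Q ∧ y ∈ Q) ((l : ℝ) ^ 2)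
    (fun _ _ _ _ h => h) (fun Q hQ => by
      have h2 : ((Q ∩ univ).card : ℝ) ≤ l := by
        rw [inter_univ]
        exact_mod_cast hc Q hQ
      have h3 : (0 : ℝ) ≤ (Q ∩ univ).card := by positivity
      exact (c2_le _ _ _).trans (by nlinarith))
  refine le_trans ?_ h1
  have h2 := hs 2 Q0 (by omega) h0
  set A := univ.filter fun a => ok (2 + 1) (insert a Q0) with hA
  calc g ^ 2 ≤ A.card * g := by nlinarith
    _ = ∑ _x ∈ A, g := by simp
    _ ≤ ∑ x ∈ A, ∑ y, ind (∃ Q ∈ F, x ∈ Q ∧ y ∈ Q) := by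
      refine sum_le_sum fun x hx => (hs 3 _ (by omega) (mem_filter.1 hx).2).trans ?_
      rw [card_filter, Nat.cast_sum]
      refine sum_le_sum fun y _ => ?_
      split_ifs with h
      · obtain ⟨Q, q1, q2⟩ := ext (l - 4) 4 _ (by omega) h
        rw [ind, if_pos ⟨Q, hF Q q1 (((subset_insert _ _).trans (subset_insert _ _)).trans q2),
          q2 (by simp), q2 (by simp)⟩]
        simp
      · simpa using ind_nonneg _
    _ ≤ _ := sum_le_sum_of_subset_of_nonneg (subset_univ _) fun _ _ _ =>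
      sum_nonneg fun _ _ => ind_nonneg _

omit [Fintype V] in
theorem c2_off (A : Finset V) (p : V → V → Prop) (h : ∀ x y, p x y → x ≠ y) :
    c2 A A p ≤ A.card * (A.card - 1) := by
  rw [← nsmul_eq_mul, ← sum_const]
  refine sum_le_sum fun x hx => ?_
  rw [← add_sum_erase _ _ hx, ind, if_neg fun h' => h x x h' rfl, zero_add]
  refine (sum_le_sum fun _ _ => ind_le _).trans ?_
  rw [sum_const, card_erase_of_mem hx, nsmul_eq_mul, mul_one,
    Nat.cast_sub (card_pos.2 ⟨x, hx⟩), Nat.cast_one]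

omit [Fintype V] in
theorem same (l : ℕ) (P : V → ℕ) (hP : ∀ x, P x < l - 1) (Q : Finset V) (hQ : Q.card = l)
    (hl : 1 ≤ l) : ∃ u ∈ Q, ∃ v ∈ Q, u ≠ v ∧ P u = P v :=
  exists_ne_map_eq_of_card_lt_of_maps_to (t := range (l - 1)) (by rw [card_range]; omega)
    fun x _ => mem_coe.2 (mem_range.2 (hP x))

theorem cross (G : SimpleGraph V) (l : ℕ) (hl : 1 ≤ l) (P : V → ℕ) (hP : ∀ x, P x < l - 1)
    (hE : ∀ x y, G.Adj x y → ∃ Q ∈ KK G l univ, x ∈ Q ∧ y ∈ Q) :
    c2 univ univ (fun x y => G.Adj x y ∧ P x ≠ P y) ≤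
      (KK G l univ).card * ((l : ℝ) * (l - 1) - 2) := by
  refine c2_cover _ _ _ _ (fun x _ y _ h => hE x y h.1) fun Q hQ => ?_
  rw [inter_univ]
  have hc := (mem_filter.1 hQ).2.1.2
  obtain ⟨u, hu, v, hv, huv, hp⟩ := same l P hP Q hc hl
  have h1 := c2_off Q (fun x y => x ≠ y) fun _ _ h => h
  have h2 : c2 Q Q (fun x y => G.Adj x y ∧ P x ≠ P y) + c2 Q Q (fun x y => x ≠ y ∧ P x = P y) ≤
      c2 Q Q fun x y => x ≠ y := by
    simp only [c2, ← sum_add_distrib]
    refine sum_le_sum fun x _ => sum_le_sum fun y _ => ?_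
    by_cases h : P x = P y
    · rw [ind, if_neg fun h' => h'.2 h, zero_add]
      exact ind_mono fun h' => h'.1
    · rw [add_comm, ind, if_neg fun h' => h h'.2, zero_add]
      exact ind_mono fun h' => h'.1.ne
  have h3 := c2_split (A := {u, v}) (U := Q) (by simp [insert_subset_iff, hu, hv])
    fun x y => x ≠ y ∧ P x = P y
  have h4 : c2 {u, v} {u, v} (fun x y => x ≠ y ∧ P x = P y) = 2 := by
    simp [c2, sum_pair huv, ind, huv, huv.symm, hp]
    norm_num
  have h5 := c2_nonneg {u, v} (Q \ {u, v}) fun x y => x ≠ y ∧ P x = P y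
  have h6 := c2_nonneg (Q \ {u, v}) {u, v} fun x y => x ≠ y ∧ P x = P y
  have h7 := c2_nonneg (Q \ {u, v}) (Q \ {u, v}) fun x y => x ≠ y ∧ P x = P y
  rw [hc] at h1
  linarith

theorem sig (r : ℕ) (hr : 0 < r) (P : V → ℕ) (hP : ∀ x, P x < r) :
    c2 univ univ (fun x y => P x = P y) - (Fintype.card V : ℝ) ^ 2 / r =
      ∑ c ∈ range r, (((univ.filter fun x => P x = c).card : ℝ) - Fintype.card V / r) ^ 2 := by
  have m : ∀ x ∈ (univ : Finset V), P x ∈ range r := fun x _ => mem_range.2 (hP x)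
  have h1 : ∑ c ∈ range r, ((univ.filter fun x => P x = c).card : ℝ) = Fintype.card V := by
    rw [← card_univ, card_eq_sum_card_fiberwise m, Nat.cast_sum]
  have h2 : c2 univ univ (fun x y => P x = P y) =
      ∑ c ∈ range r, ((univ.filter fun x => P x = c).card : ℝ) ^ 2 := by
    rw [c2, ← sum_fiberwise_of_maps_to m]
    refine sum_congr rfl fun c _ => ?_
    rw [sq, ← nsmul_eq_mul, ← sum_const]
    refine sum_congr rfl fun x hx => ?_
    rw [card_filter, Nat.cast_sum, (mem_filter.1 hx).2]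
    refine sum_congr rfl fun y _ => ?_
    by_cases h : P y = c
    · simp [ind, h]
    · simp [ind, h, Ne.symm h]
  have hr' : (r : ℝ) ≠ 0 := by positivity
  simp only [sub_sq, sum_add_distrib, sum_sub_distrib, ← sum_mul, ← mul_sum, h1, h2, sum_const,
    card_range, nsmul_eq_mul]
  field_simp
  ring

def okk (G : SimpleGraph V) (P : V → ℕ) (Bd : Finset V) (s : ℕ) (Q : Finset V) : Prop :=
  G.IsNClique s Q ∧ (∀ x ∈ Q, x ∉ Bd) ∧ (Q.image P).card + 1 ≤ s

theorem struct (G : SimpleGraph V) (l : ℕ) (hl : 4 ≤ l) (P : V → ℕ) (hP : ∀ x, P x < l - 1)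
    (hE : ∀ x y, G.Adj x y → ∃ Q ∈ KK G l univ, x ∈ Q ∧ y ∈ Q)
    (hn : 16 * (l : ℝ) ^ 8 ≤ Fintype.card V)
    (hk : ((KK G l univ).card : ℝ) ≤ (Fintype.card V : ℝ) ^ 2)
    (hC : ∀ c < l - 1, (Fintype.card V : ℝ) / (2 * l) ≤ (univ.filter fun x => P x = c).card)
    (hM : c2 univ univ (fun x y => ¬ G.Adj x y ∧ P x ≠ P y) ≤
      1 / (8 * (l : ℝ) ^ 5) * (Fintype.card V : ℝ) ^ 2) :
    c2 univ univ (fun x y => G.Adj x y ∧ P x ≠ P y) ≤
      (KK G l univ).card * (((l : ℝ) - 1) * (l - 2)) + 4 / (l : ℝ) ^ 3 * (Fintype.card V : ℝ) ^ 2 := by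
  set n : ℝ := (Fintype.card V : ℝ) with hn'
  have hL : (4 : ℝ) ≤ l := by exact_mod_cast hl
  have hn0 : 0 < n := lt_of_lt_of_le (by positivity) hn
  have hg : 0 < n / (4 * l) := by positivity
  set ms : V → Finset V := fun x => univ.filter fun y => ¬ G.Adj x y ∧ P x ≠ P y with hms
  set Bd := univ.filter fun x => n / (8 * (l : ℝ) ^ 2) ≤ (ms x).card with hBd
  have hB : (Bd.card : ℝ) ≤ n / (l : ℝ) ^ 3 := by
    have h1 : (Bd.card : ℝ) * (n / (8 * (l : ℝ) ^ 2)) ≤ ∑ x ∈ Bd, ((ms x).card : ℝ) := by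
      rw [← nsmul_eq_mul, ← sum_const]
      exact sum_le_sum fun x hx => (mem_filter.1 hx).2
    have h2 : ∑ x ∈ Bd, ((ms x).card : ℝ) ≤ c2 univ univ (fun x y => ¬ G.Adj x y ∧ P x ≠ P y) := by
      refine (sum_le_sum_of_subset_of_nonneg (subset_univ _) fun _ _ _ => by positivity).trans
        (sum_le_sum fun x _ => le_of_eq ?_)
      rw [hms, card_filter, Nat.cast_sum]
      refine sum_congr rfl fun y _ => ?_
      rw [ind]
      split_ifs <;> simp
    refine le_of_mul_le_mul_right (h1.trans (h2.trans (hM.trans (le_of_eq ?_))))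
      (by positivity : 0 < n / (8 * (l : ℝ) ^ 2))
    field_simp
  have hs : ∀ s Q, s < l → okk G P Bd s Q →
      n / (4 * l) ≤ (univ.filter fun a => okk G P Bd (s + 1) (insert a Q)).card := by
    rintro s Q hs ⟨q1, q2, q3⟩
    obtain ⟨c, hc, hc'⟩ := exists_mem_notMem_of_card_lt_card (s := Q.image P) (t := range (l - 1))
      (by rw [card_range]; omega)
    have h1 : (univ.filter fun x => P x = c) ⊆
        ((univ.filter fun a => okk G P Bd (s + 1) (insert a Q)) ∪ Bd) ∪ Q.biUnion ms := by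
      intro a ha
      by_contra hcon
      simp only [mem_union, not_or, mem_biUnion, not_exists, not_and] at hcon
      refine hcon.1.1 (mem_filter.2 ⟨mem_univ _, q1.insert fun b hb => ?_, fun x hx => ?_, ?_⟩)
      · by_contra h
        refine hcon.2 b hb (mem_filter.2 ⟨mem_univ _, fun h' => h h'.symm, fun h' => hc' ?_⟩)
        exact mem_image.2 ⟨b, hb, h'.trans (mem_filter.1 ha).2⟩
      · rcases mem_insert.1 hx with rfl | hx
        · exact hcon.1.2
        · exact q2 x hx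
      · rw [image_insert]
        have := card_insert_le (P a) (Q.image P)
        omega
    have h2 : ((univ.filter fun x => P x = c).card : ℝ) ≤
        (univ.filter fun a => okk G P Bd (s + 1) (insert a Q)).card + Bd.card +
        ∑ x ∈ Q, ((ms x).card : ℝ) := by
      exact_mod_cast (card_le_card h1).trans ((card_union_le _ _).trans
        (Nat.add_le_add (card_union_le _ _) card_biUnion_le))
    have h3 : ∑ x ∈ Q, ((ms x).card : ℝ) ≤ Q.card * (n / (8 * (l : ℝ) ^ 2)) := by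
      rw [← nsmul_eq_mul, ← sum_const]
      exact sum_le_sum fun x hx => (not_le.1 fun h => q2 x hx (mem_filter.2 ⟨mem_univ _, h⟩)).le
    have h4 : (Q.card : ℝ) * (n / (8 * (l : ℝ) ^ 2)) ≤ l * (n / (8 * (l : ℝ) ^ 2)) := by
      refine mul_le_mul_of_nonneg_right ?_ (by positivity)
      rw [q1.2]
      exact_mod_cast hs.le
    have h5 := hC c (mem_range.1 hc)
    have h6 : n / (l : ℝ) ^ 3 ≤ n / (8 * l) := div_le_div_of_nonneg_left hn0.le (by positivity)
      (by nlinarith)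
    have h7 : l * (n / (8 * (l : ℝ) ^ 2)) = n / (8 * l) := by field_simp
    have h8 : n / (2 * l) = n / (4 * l) + n / (8 * l) + n / (8 * l) := by
      field_simp
      ring
    linarith
  set Z := univ.filter fun z => ∃ Q, okk G P Bd 2 Q ∧ z ∈ Q with hZ
  have hZc : (Z.card : ℝ) ≤ n / (l : ℝ) ^ 3 := by
    have h1 : ∑ x ∈ Z, ((KK G l univ).filter fun Q => x ∈ Q).card ≤ (KK G l univ).card * l := by
      have e := sum_card_bipartiteAbove_eq_sum_card_bipartiteBelow (s := Z)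
        (t := KK G l univ) (fun x Q => x ∈ Q)
      refine e.le.trans ?_
      rw [← smul_eq_mul, ← sum_const]
      refine sum_le_sum fun Q hQ => le_trans (card_le_card fun x hx => ?_)
        (mem_filter.1 hQ).2.1.2.le
      exact (mem_filter.1 hx).2
    have h2 : (Z.card : ℝ) * (n / (4 * l)) ^ 2 ≤
        ∑ x ∈ Z, (((KK G l univ).filter fun Q => x ∈ Q).card : ℝ) * (l : ℝ) ^ 2 := by
      rw [← nsmul_eq_mul, ← sum_const]
      refine sum_le_sum fun x hx => ?_
      obtain ⟨Q, q1, q2⟩ := (mem_filter.1 hx).2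
      exact many (okk G P Bd) l _ hg hl hs Q q1 _ (fun Q' h h' => mem_filter.2
        ⟨mem_filter.2 ⟨mem_univ _, h.1, subset_univ _⟩, h' q2⟩)
        fun Q' h => (mem_filter.1 (mem_filter.1 h).1).2.1.2.le
    have h3 : ∑ x ∈ Z, (((KK G l univ).filter fun Q => x ∈ Q).card : ℝ) ≤
        (KK G l univ).card * l := by exact_mod_cast h1
    rw [← sum_mul] at h2
    have h4 : (Z.card : ℝ) * (n / (4 * l)) ^ 2 ≤ 16 * (l : ℝ) ^ 5 * (n / (4 * l)) ^ 2 := by
      refine h2.trans ((mul_le_mul_of_nonneg_right (h3.trans (mul_le_mul_of_nonneg_right hk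
        (by positivity))) (by positivity)).trans (le_of_eq ?_))
      field_simp
      ring
    refine (le_of_mul_le_mul_right h4 (by positivity)).trans ?_
    rw [le_div_iff₀ (by positivity)]
    linarith
  have h1 := (c2_del univ (Bd ∪ Z) fun x y => G.Adj x y ∧ P x ≠ P y).1
  have h2 := c2_cover (KK G l univ) (univ \ (Bd ∪ Z)) (fun x y => G.Adj x y ∧ P x ≠ P y)
    (((l : ℝ) - 1) * (l - 2)) (fun x _ y _ h => hE x y h.1) fun Q hQ => by
    have q1 := (mem_filter.1 hQ).2.1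
    obtain ⟨u, hu, v, hv, huv, hp⟩ := same l P hP Q q1.2 (by omega)
    have t1 : (Q ∩ (univ \ (Bd ∪ Z))).card < l := by
      rw [← q1.2]
      refine card_lt_card ⟨inter_subset_left, fun h => ?_⟩
      have a1 := mem_sdiff.1 (mem_inter.1 (h hu)).2
      have a2 := mem_sdiff.1 (mem_inter.1 (h hv)).2
      simp only [mem_union, not_or] at a1 a2
      refine a1.2.2 (mem_filter.2 ⟨mem_univ _, {u, v}, ⟨⟨?_, card_pair huv⟩, ?_, ?_⟩, by simp⟩)
      · simpa using fun _ => q1.1 hu hv huv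
      · simp [a1.2.1, a2.2.1]
      · simp [hp]
    have t2 : ((Q ∩ (univ \ (Bd ∪ Z))).card : ℝ) + 1 ≤ l := by exact_mod_cast t1
    have t3 : (0 : ℝ) ≤ (Q ∩ (univ \ (Bd ∪ Z))).card := by positivity
    exact (c2_off _ _ fun _ _ h => h.1.ne).trans (by nlinarith)
  have h3 : ((Bd ∪ Z).card : ℝ) ≤ Bd.card + Z.card := by exact_mod_cast card_union_le _ _
  have h4 : 4 / (l : ℝ) ^ 3 * n ^ 2 = 2 * (n / (l : ℝ) ^ 3 + n / (l : ℝ) ^ 3) * n := by ring
  rw [← hn'] at h1
  nlinarith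

end Pool.Agent.H.MP_8cad3b_co
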