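import Pool.Agent.H.MP_8cad3b_co.B
set_option autoImplicit false

namespace Pool.Agent.H.MP_8cad3b_co
open Finset
open scoped Classical

theorem numB (L : ℝ) (hL : 4 ≤ L) : (L - 1) * (L - 2) * ((L + 3) / ((L - 1) * (L + 1))) +
    3 / 10 * ((L - 1) * (L - 2) * (1 / (8 * L ^ 5))) + 2 * (1 / (8 * L ^ 5)) + 2 * (4 / L ^ 3) ≤
    (L - 1) * (L - 2) * (1 / (L - 1)) + 2 - 2 * (1 / (L - 1)) := by
  have h0 : 0 < L - 1 := by linarith
  have h1 : (L - 1) * (L - 2) * (1 / (L - 1)) + 2 - 2 * (1 / (L - 1)) -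
      (L - 1) * (L - 2) * ((L + 3) / ((L - 1) * (L + 1))) = 4 * (L - 2) / ((L - 1) * (L + 1)) := by
    field_simp
    ring
  have h2 : 2 / L ≤ 4 * (L - 2) / ((L - 1) * (L + 1)) := by
    rw [div_le_div_iff₀ (by positivity) (by positivity)]
    nlinarith
  have h3 : (L - 1) * (L - 2) * (1 / (8 * L ^ 5)) ≤ 1 / L ^ 3 := by
    rw [mul_one_div, div_le_div_iff₀ (by positivity) (by positivity)]
    have : (L - 1) * (L - 2) ≤ 8 * L ^ 2 := by nlinarith
    nlinarith [mul_le_mul_of_nonneg_right this (by positivity : 0 ≤ L ^ 3)]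
  have h4 : 1 / (8 * L ^ 5) ≤ 1 / L ^ 3 := by
    refine one_div_le_one_div_of_le (by positivity) ?_
    have : 1 ≤ 8 * L ^ 2 := by nlinarith
    nlinarith [mul_le_mul_of_nonneg_right this (by positivity : 0 ≤ L ^ 3)]
  have h5 : 11 / L ^ 3 ≤ 2 / L := by
    rw [div_le_div_iff₀ (by positivity) (by positivity)]
    have : 11 ≤ 2 * L ^ 2 := by nlinarith
    nlinarith [mul_le_mul_of_nonneg_right this (by positivity : 0 ≤ L)]
  have h6 : 4 / L ^ 3 = 4 * (1 / L ^ 3) := by ring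
  have h7 : 11 / L ^ 3 = 11 * (1 / L ^ 3) := by ring
  have h8 : 0 < 1 / L ^ 3 := by positivity
  linarith

theorem main (l : ℕ) (hl : 4 ≤ l) : ∃ ε : ℝ, 0 < ε ∧ ∃ N : ℝ, ∀ (V : Type) [Fintype V]
    (G : SimpleGraph V), N ≤ Fintype.card V →
    (∀ x y, G.Adj x y → ∃ Q ∈ KK G l univ, x ∈ Q ∧ y ∈ Q) →
    (((l : ℝ) + 3) / ((l - 1) * (l + 1)) + ε) * (Fintype.card V : ℝ) ^ 2 ≤
      c2 univ univ (fun x y => x ≠ y ∧ ¬ G.Adj x y) + 2 * (KK G l univ).card := by
  have hL : (4 : ℝ) ≤ l := by exact_mod_cast hl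
  have hB := numB l hL
  set t : ℝ := 1 / (8 * (l : ℝ) ^ 5) with ht
  have ht0 : 0 < t := by positivity
  obtain ⟨a, ha, H⟩ := fur (l - 2) (t / 5) (by positivity)
  refine ⟨t / 10, by positivity, 16 * (l : ℝ) ^ 8 + 1 / a, fun V _ G hn hE => ?_⟩
  have hst := fun P h1 => struct G l hl P h1 hE
  have hcr := fun P h1 => cross G l (by omega) P h1 hE
  have hsg := fun P h1 => sig (V := V) (l - 1) (by omega) P h1
  have H := H V G univ
  rw [Nat.sub_add_cancel (by omega : 2 ≤ l)] at H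
  rw [Nat.cast_sub (by omega), Nat.cast_one] at hsg
  have hd : c2 (univ : Finset V) univ (fun x y => x = y) = Fintype.card V := by simp [c2, ind]
  have ho : c2 (univ : Finset V) univ (fun _ _ => True) = (Fintype.card V : ℝ) ^ 2 := by
    simp [c2, ind, sq]
  set n : ℝ := (Fintype.card V : ℝ) with hn'
  set k : ℝ := ((KK G l univ).card : ℝ) with hk'
  have ha' : 0 < 1 / a := by positivity
  have hl8 : 0 < 16 * (l : ℝ) ^ 8 := by positivity
  have hn0 : 0 < n := by linarith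
  have h0 : 0 < (l : ℝ) - 1 := by linarith
  have htl : t * (8 * (l : ℝ) ^ 5) = 1 := by
    rw [ht]
    field_simp
  have hl3 : (64 : ℝ) ≤ (l : ℝ) ^ 3 := by
    have := pow_le_pow_left₀ (by norm_num) hL 3
    linarith
  have hl5 : (0 : ℝ) < (l : ℝ) ^ 5 := by positivity
  have hnt : n ≤ t / 10 * n ^ 2 := by
    have h1 : 80 * (l : ℝ) ^ 5 ≤ n := by nlinarith
    have h2 : 10 ≤ t * n := by nlinarith
    nlinarith
  have hN := c2_nonneg univ univ fun x y => x ≠ y ∧ ¬ G.Adj x y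
  rcases le_or_gt k (n ^ 2) with hk | hk
  swap
  · have h1 : ((l : ℝ) + 3) / ((l - 1) * (l + 1)) ≤ 1 := by
      rw [div_le_one (by positivity)]
      nlinarith
    have h2 : t ≤ 1 := by
      have : (1 : ℝ) ≤ (l : ℝ) ^ 5 := one_le_pow₀ (by linarith)
      nlinarith
    nlinarith [sq_nonneg n]
  obtain ⟨P, p1, p2⟩ := H (hk.trans (by
    have h1 : 1 ≤ a * n := by
      rw [← div_le_iff₀' ha]
      linarith
    have h2 : 1 ≤ n := by
      have : (1 : ℝ) ≤ (l : ℝ) ^ 8 := one_le_pow₀ (by linarith)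
      linarith
    have h3 : n ^ 3 ≤ n ^ l := pow_le_pow_right₀ h2 (by omega)
    nlinarith [sq_nonneg n]))
  have hP : ∀ x, P x < l - 1 := fun x => by
    have := p1 x
    omega
  have f2 : c2 univ univ (fun x y => P x = P y) + c2 univ univ (fun x y => ¬ G.Adj x y ∧ P x ≠ P y) ≤
      c2 univ univ (fun x y => x ≠ y ∧ ¬ G.Adj x y) +
        c2 univ univ (fun x y => G.Adj x y ∧ P x = P y) + n := by
    rw [← hd]
    simp only [c2, ← sum_add_distrib]
    refine sum_le_sum fun x _ => sum_le_sum fun y _ => ?_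
    by_cases h1 : x = y
    · simp [ind, h1]
    · by_cases h2 : P x = P y <;> by_cases h3 : G.Adj x y <;> simp [ind, h1, h2, h3]
  have f3 : n ^ 2 ≤ c2 univ univ (fun x y => P x = P y) +
      c2 univ univ (fun x y => G.Adj x y ∧ P x ≠ P y) +
      c2 univ univ (fun x y => ¬ G.Adj x y ∧ P x ≠ P y) := by
    rw [← ho]
    simp only [c2, ← sum_add_distrib]
    refine sum_le_sum fun x _ => sum_le_sum fun y _ => ?_
    by_cases h2 : P x = P y <;> by_cases h3 : G.Adj x y <;> simp [ind, h2, h3]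
  have f4 := hcr P hP
  have f5 := hsg P hP
  have f6 := hst P hP (by linarith) hk
  have f7 := c2_nonneg univ univ fun x y => ¬ G.Adj x y ∧ P x ≠ P y
  have f8 : 0 ≤ c2 univ univ (fun x y => P x = P y) - n ^ 2 / (l - 1) :=
    f5 ▸ sum_nonneg fun _ _ => sq_nonneg _
  have f9 : ∀ c < l - 1, (((univ.filter fun x => P x = c).card : ℝ) - n / (l - 1)) ^ 2 ≤
      c2 univ univ (fun x y => P x = P y) - n ^ 2 / (l - 1) := fun c hc => by
    rw [f5]
    exact single_le_sum (f := fun c => (((univ.filter fun x => P x = c).card : ℝ) - n / (l - 1)) ^ 2)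
      (fun _ _ => sq_nonneg _) (mem_range.2 hc)
  generalize c2 univ univ (fun x y => P x = P y) = S at *
  generalize c2 univ univ (fun x y => ¬ G.Adj x y ∧ P x ≠ P y) = M at *
  generalize c2 univ univ (fun x y => G.Adj x y ∧ P x ≠ P y) = X at *
  generalize c2 univ univ (fun x y => G.Adj x y ∧ P x = P y) = I at *
  generalize c2 univ univ (fun x y => x ≠ y ∧ ¬ G.Adj x y) = N at *
  rcases le_or_gt (t * n ^ 2) (S - n ^ 2 / (l - 1) + M) with h | h
  · have e : ((l : ℝ) * (l - 1) - 2 - 2) * (n ^ 2 / (l - 1)) + 2 * n ^ 2 =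
        (l * (l - 1) - 2) * ((l + 3) / ((l - 1) * (l + 1)) * n ^ 2) := by
      field_simp
      ring
    have hq : (10 : ℝ) ≤ l * (l - 1) - 2 := by nlinarith
    generalize (l : ℝ) * (l - 1) - 2 = q at *
    refine le_of_mul_le_mul_left ?_ (by linarith : 0 < q)
    have g1 := mul_le_mul_of_nonneg_left (show S + M / 2 - t / 5 * n ^ 2 ≤ N by linarith)
      (by linarith : 0 ≤ q)
    have g2 := mul_le_mul_of_nonneg_left h (by linarith : 0 ≤ q)
    have g3 := mul_nonneg f8 (by linarith : 0 ≤ 7 * q / 10 - 2)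
    have g4 := mul_nonneg f7 (by linarith : 0 ≤ q / 5 - 2)
    linarith
  · have f := f6 (fun c hc => not_lt.1 fun h' => by
      have g1 := f9 c hc
      have g2 : n / l ≤ n / (l - 1) := div_le_div_of_nonneg_left hn0.le h0 (by linarith)
      have g3 : n / l = 2 * (n / (2 * l)) := by field_simp
      have g4 : 0 < n / (2 * l) := by positivity
      have g5 : t * n ^ 2 ≤ (n / (2 * l)) ^ 2 := by
        rw [ht, div_pow, one_div_mul_eq_div]
        refine div_le_div_of_nonneg_left (by positivity) (by positivity) ?_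
        nlinarith [sq_nonneg (l : ℝ)]
      nlinarith) (by linarith)
    have hp : (0 : ℝ) < (l - 1) * (l - 2) := by nlinarith
    have g0 := mul_le_mul_of_nonneg_right hB (sq_nonneg n)
    have g3 : n ^ 2 / (l - 1) = 1 / (l - 1) * n ^ 2 := by ring
    generalize ((l : ℝ) - 1) * (l - 2) = p at *
    refine le_of_mul_le_mul_left ?_ hp
    have g1 := mul_le_mul_of_nonneg_left
      (show 1 / ((l : ℝ) - 1) * n ^ 2 - t / 5 * n ^ 2 ≤ N by linarith) hp.le
    linarith

end Pool.Agent.H.MP_8cad3b_co
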